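import Pool.Agent.Lib.MP_366c56_co.Main

set_option autoImplicit false

namespace Pool.Agent.Results.MP_366c56_co.SizeRamseyTrees

open Finset

/-- Every colouring of the edges of `G` with `r` colours contains a monochromatic copy of `T`. -/
def Arrows (r : ℕ) {n N : ℕ} (G : SimpleGraph (Fin N)) (T : SimpleGraph (Fin n)) : Prop :=
  ∀ c : G.edgeSet → Fin r, ∃ (f : Fin n → Fin N) (i : Fin r), Function.Injective f ∧
    ∀ u v, T.Adj u v → ∃ h : s(f u, f v) ∈ G.edgeSet, c ⟨s(f u, f v), h⟩ = i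

/-- The `r`-colour size-Ramsey number of `T`: the least number of edges of a finite graph `G`
such that every `r`-colouring of the edges of `G` contains a monochromatic copy of `T`. -/
noncomputable def sizeRamsey (r : ℕ) {n : ℕ} (T : SimpleGraph (Fin n)) : ℕ :=
  sInf {m : ℕ | ∃ (N : ℕ) (G : SimpleGraph (Fin N)), G.edgeSet.ncard = m ∧ Arrows r G T}

/-- `V₁` and its complement are the two classes of a bipartition of `T`. -/
def IsClass {n : ℕ} (T : SimpleGraph (Fin n)) (V₁ : Finset (Fin n)) : Prop :=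
  ∀ u v, T.Adj u v → (u ∈ V₁ ↔ v ∉ V₁)

/-- `β(T) = n₁ Δ₁ + n₂ Δ₂`, where `V₁`, `V₂ = V₁ᶜ` are the classes, `nᵢ = |Vᵢ|` and `Δᵢ` is the
largest degree of a vertex of `Vᵢ`. -/
noncomputable def beta {n : ℕ} (T : SimpleGraph (Fin n)) (V₁ : Finset (Fin n)) : ℕ :=
  V₁.card * V₁.sup (fun v => (T.neighborSet v).ncard) +
    V₁ᶜ.card * V₁ᶜ.sup (fun v => (T.neighborSet v).ncard)

lemma exists_class {n : ℕ} (T : SimpleGraph (Fin n)) (hT : T.IsTree) (hn : 2 ≤ n) :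
    ∃ V₁, IsClass T V₁ := by
  classical
  let x0 : Fin n := ⟨0, by omega⟩
  refine ⟨univ.filter (fun v => Even (T.dist x0 v)), ?_⟩
  intro u v huv
  rw [mem_filter, mem_filter]
  simp only [mem_univ, true_and]
  rcases hT.dist_eq_dist_add_one_of_adj x0 huv with h | h
  · rw [h, Nat.even_add_one]
  · rw [h, Nat.even_add_one, not_not]

lemma ncard_eq_degree {n : ℕ} (T : SimpleGraph (Fin n)) [DecidableRel T.Adj] (v : Fin n) :
    (T.neighborSet v).ncard = T.degree v := by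
  rw [← SimpleGraph.card_neighborFinset_eq_degree, ← Set.ncard_coe_finset,
    SimpleGraph.coe_neighborFinset]

lemma clog_le_log (r : ℕ) (hr : 2 ≤ r) : (Nat.clog 2 r : ℝ) ≤ 3 * Real.log r := by
  have h1 : 2 ^ (Nat.clog 2 r).pred < r := Nat.pow_pred_clog_lt_self (by norm_num) (by omega)
  have h2 : 0 < Nat.clog 2 r := Nat.clog_pos (by norm_num) (by omega)
  obtain ⟨m, hm⟩ : ∃ m, Nat.clog 2 r = m + 1 := ⟨Nat.clog 2 r - 1, by omega⟩
  rw [hm] at h1 ⊢
  simp only [Nat.pred_succ] at h1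
  have hr0 : (0 : ℝ) < r := by
    have : 0 < r := by omega
    exact_mod_cast this
  have h3 : ((2 : ℝ) ^ m) ≤ r := by exact_mod_cast h1.le
  have h4 : (m : ℝ) * Real.log 2 ≤ Real.log r := by
    rw [← Real.log_pow]
    exact Real.log_le_log (by positivity) h3
  have h5 : Real.log 2 ≤ Real.log r := Real.log_le_log (by norm_num) (by exact_mod_cast hr)
  have h6 := Real.log_two_gt_d9
  push_cast
  have h7 : ((m : ℝ) + 1) * Real.log 2 ≤ 2 * Real.log r := by linarith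
  have h8 : 0 ≤ (m : ℝ) + 1 := by positivity
  have h9 : ((m : ℝ) + 1) * (2 / 3) ≤ ((m : ℝ) + 1) * Real.log 2 :=
    mul_le_mul_of_nonneg_left (by linarith) h8
  linarith

lemma main_bound {r n : ℕ} (hr : 2 ≤ r) (hn : 2 ≤ n) (T : SimpleGraph (Fin n)) (hT : T.IsTree)
    (V₁ : Finset (Fin n)) (hV : IsClass T V₁) :
    ∃ (N : ℕ) (G : SimpleGraph (Fin N)), Arrows r G T ∧
      G.edgeSet.ncard ≤ 604569600 * r ^ 2 * Nat.clog 2 r * beta T V₁ := by
  classical
  have hL : 1 ≤ Nat.clog 2 r := Nat.clog_pos (by norm_num) (by omega)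
  have hrL : r ≤ 2 ^ Nat.clog 2 r := Nat.le_pow_clog (by norm_num) r
  have hr0 : 0 < r := by omega
  have key : ∃ (N : ℕ) (H : SimpleGraph (Fin N)),
      (∀ c : Sym2 (Fin N) → Fin r, ∃ (f : Fin n → Fin N) (i : Fin r), Function.Injective f ∧
        ∀ u v, T.Adj u v → H.Adj (f u) (f v) ∧ c s(f u, f v) = i) ∧
      H.edgeSet.ncard ≤ 604569600 * r ^ 2 * Nat.clog 2 r * beta T V₁ := by
    unfold beta
    simp_rw [ncard_eq_degree]
    rcases le_total #(V₁ᶜ) #V₁ with h | h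
    · exact Pool.Agent.Lib.MP_366c56_co.main_ordered T hT hn V₁ hV r _ hrL hr0 hL h
    · have hV' : ∀ u v, T.Adj u v → (u ∈ V₁ᶜ ↔ v ∉ V₁ᶜ) := by
        intro u v huv
        have := hV u v huv
        rw [mem_compl, mem_compl]
        tauto
      have h' := Pool.Agent.Lib.MP_366c56_co.main_ordered T hT hn V₁ᶜ hV' r _ hrL hr0 hL
        (by rw [compl_compl]; exact h)
      rw [compl_compl] at h'
      obtain ⟨N, H, h1, h2⟩ := h'
      refine ⟨N, H, h1, h2.trans (le_of_eq ?_)⟩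
      rw [add_comm]
  obtain ⟨N, H, h1, h2⟩ := key
  refine ⟨N, H, ?_, h2⟩
  intro c
  obtain ⟨f, i, hf, hfi⟩ := h1 (fun e => if h : e ∈ H.edgeSet then c ⟨e, h⟩ else ⟨0, hr0⟩)
  refine ⟨f, i, hf, ?_⟩
  intro u v huv
  obtain ⟨h3, h4⟩ := hfi u v huv
  have h5 : s(f u, f v) ∈ H.edgeSet := by rw [SimpleGraph.mem_edgeSet]; exact h3
  refine ⟨h5, ?_⟩
  rw [dif_pos h5] at h4
  exact h4

/-- There is an absolute constant `C` with `R̂_r(T) ≤ C r² (log r) β(T)` for all `r ≥ 2` and all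
trees `T` with at least two vertices. -/
theorem result : ∃ C : ℝ, ∀ (r n : ℕ), 2 ≤ r → 2 ≤ n →
    ∀ T : SimpleGraph (Fin n), T.IsTree →
      (∃ (N : ℕ) (G : SimpleGraph (Fin N)), G.edgeSet.ncard = sizeRamsey r T ∧ Arrows r G T) ∧
      (∃ V₁, IsClass T V₁) ∧
      ∀ V₁, IsClass T V₁ →
        (sizeRamsey r T : ℝ) ≤ C * (r : ℝ) ^ 2 * Real.log r * (beta T V₁ : ℝ) := by
  refine ⟨1813708800, ?_⟩
  intro r n hr hn T hT
  have hcls := exists_class T hT hn
  have hne : {m : ℕ | ∃ (N : ℕ) (G : SimpleGraph (Fin N)), G.edgeSet.ncard = m ∧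
      Arrows r G T}.Nonempty := by
    obtain ⟨V₁, hV⟩ := hcls
    obtain ⟨N, G, hG, _⟩ := main_bound hr hn T hT V₁ hV
    exact ⟨_, N, G, rfl, hG⟩
  refine ⟨Nat.sInf_mem hne, hcls, ?_⟩
  intro V₁ hV
  obtain ⟨N, G, hG, hle⟩ := main_bound hr hn T hT V₁ hV
  have h1 : sizeRamsey r T ≤ G.edgeSet.ncard := Nat.sInf_le ⟨N, G, rfl, hG⟩
  have h2 : (sizeRamsey r T : ℝ) ≤ 604569600 * (r : ℝ) ^ 2 * (Nat.clog 2 r : ℝ) * (beta T V₁ : ℝ) := by
    exact_mod_cast h1.trans hle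
  have h3 := clog_le_log r hr
  calc (sizeRamsey r T : ℝ) ≤ 604569600 * (r : ℝ) ^ 2 * (Nat.clog 2 r : ℝ) * (beta T V₁ : ℝ) := h2
    _ ≤ 604569600 * (r : ℝ) ^ 2 * (3 * Real.log r) * (beta T V₁ : ℝ) := by
        apply mul_le_mul_of_nonneg_right _ (by positivity)
        exact mul_le_mul_of_nonneg_left h3 (by positivity)
    _ = 1813708800 * (r : ℝ) ^ 2 * Real.log r * (beta T V₁ : ℝ) := by ring

end Pool.Agent.Results.MP_366c56_co.SizeRamseyTrees
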